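import Mathlib
import Pool.Agent.H63.Heis1
import Pool.Agent.H63.Heis2

set_option autoImplicit false
open Set Matrix

namespace Pool.Agent.Results.MP_2c2cb6_an.Heisenberg

/-- Upper unitriangular: diagonal entries `1`, entries below the diagonal `0`. -/
def IsUT (M : SpecialLinearGroup (Fin 3) ℤ) : Prop :=
  (∀ i, M.1 i i = 1) ∧ ∀ i j, j < i → M.1 i j = 0

theorem isUT_iff (M : SpecialLinearGroup (Fin 3) ℤ) : IsUT M ↔
    M.1 0 0 = 1 ∧ M.1 1 1 = 1 ∧ M.1 2 2 = 1 ∧ M.1 1 0 = 0 ∧ M.1 2 0 = 0 ∧ M.1 2 1 = 0 := by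
  simp [IsUT, Fin.forall_fin_succ, and_assoc]

theorem ut_one : IsUT 1 := by simp [isUT_iff]

theorem ut_mul {M N : SpecialLinearGroup (Fin 3) ℤ} (h : IsUT M) (h' : IsUT N) : IsUT (M * N) := by
  obtain ⟨a1, a2, a3, a4, a5, a6⟩ := (isUT_iff _).1 h
  obtain ⟨b1, b2, b3, b4, b5, b6⟩ := (isUT_iff _).1 h'
  simp [isUT_iff, Matrix.mul_apply, Fin.sum_univ_three, *]

theorem ut_inv {M : SpecialLinearGroup (Fin 3) ℤ} (h : IsUT M) : IsUT M⁻¹ := by
  obtain ⟨a1, a2, a3, a4, a5, a6⟩ := (isUT_iff _).1 h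
  simp [isUT_iff, SpecialLinearGroup.coe_inv, adjugate_fin_three, *]

/-- The discrete Heisenberg group: upper unitriangular integer `3 × 3` matrices. -/
def Heis : Subgroup (SpecialLinearGroup (Fin 3) ℤ) where
  carrier := {M | IsUT M}
  one_mem' := ut_one
  mul_mem' := ut_mul
  inv_mem' := ut_inv

def mk (x y z : ℤ) : Heis :=
  ⟨⟨!![1, x, z; 0, 1, y; 0, 0, 1], by simp [det_fin_three]⟩, (isUT_iff _).2 (by simp)⟩

theorem mk_mul (x y z x' y' z' : ℤ) :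
    mk x y z * mk x' y' z' = mk (x + x') (y + y') (z + z' + x * y') := by
  ext i j
  fin_cases i <;> fin_cases j <;> simp [mk, Matrix.mul_apply, Fin.sum_univ_three] <;> ring

theorem eq_mk (g : Heis) : g = mk (g.1.1 0 1) (g.1.1 1 2) (g.1.1 0 2) := by
  obtain ⟨M, hM⟩ := g
  obtain ⟨a1, a2, a3, a4, a5, a6⟩ := (isUT_iff _).1 hM
  ext i j
  fin_cases i <;> fin_cases j <;> simp [mk, *]

theorem mk_zero : mk 0 0 0 = 1 := by
  ext i j
  fin_cases i <;> fin_cases j <;> simp [mk]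

theorem mk_inv (x y z : ℤ) : (mk x y z)⁻¹ = mk (-x) (-y) (x * y - z) := by
  rw [inv_eq_iff_mul_eq_one, mk_mul, ← mk_zero]; congr 1 <;> ring

theorem gen : Subgroup.closure {mk 1 0 0, mk 0 1 0} = ⊤ := by
  obtain ⟨S, hS⟩ : ∃ S, S = Subgroup.closure {mk 1 0 0, mk 0 1 0} := ⟨_, rfl⟩
  have ha : mk 1 0 0 ∈ S := hS ▸ Subgroup.subset_closure (by simp)
  have hb : mk 0 1 0 ∈ S := hS ▸ Subgroup.subset_closure (by simp)
  have hc : mk 0 0 1 ∈ S := by
    have := S.mul_mem (S.mul_mem (S.mul_mem ha hb) (S.inv_mem ha)) (S.inv_mem hb)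
    simpa [mk_inv, mk_mul] using this
  have key : ∀ (p : ℤ → Heis), p 0 = 1 → (∀ m n, p (m + n) = p m * p n) → p 1 ∈ S → ∀ n, p n ∈ S := by
    intro p h0 h h1 n
    induction n using Int.induction_on with
    | zero => exact h0 ▸ S.one_mem
    | succ n ih => rw [h]; exact S.mul_mem ih h1
    | pred n ih =>
      have : p (-n - 1) = p (-n) * (p 1)⁻¹ := by rw [eq_mul_inv_iff_mul_eq, ← h, sub_add_cancel]
      rw [this]; exact S.mul_mem ih (S.inv_mem h1)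
  rw [← hS, eq_top_iff]
  intro g _
  rw [eq_mk g]
  have h1 := key (fun n => mk n 0 0) mk_zero (fun m n => by simp [mk_mul]) ha (g.1.1 0 1)
  have h2 := key (fun n => mk 0 n 0) mk_zero (fun m n => by simp [mk_mul]) hb (g.1.1 1 2)
  have h3 := key (fun n => mk 0 0 n) mk_zero (fun m n => by simp [mk_mul]) hc (g.1.1 0 2)
  simpa [mk_mul] using S.mul_mem (S.mul_mem h3 h2) h1

/-- The translation `σ^u`. -/
def shift {A : Type} {d : ℕ} (u : Fin d → ℤ) (x : (Fin d → ℤ) → A) : (Fin d → ℤ) → A :=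
  fun v => x (u + v)

/-- A subshift of dimension `d`. -/
def IsShift {A : Type} [TopologicalSpace A] {d : ℕ} (X : Set ((Fin d → ℤ) → A)) : Prop :=
  X.Nonempty ∧ IsClosed X ∧ ∀ u, shift u '' X = X

/-- A self-homeomorphism of `X` commuting with every translation. -/
def IsAut {A : Type} [TopologicalSpace A] {d : ℕ} {X : Set ((Fin d → ℤ) → A)} (φ : X ≃ₜ X) :
    Prop :=
  ∀ (u : Fin d → ℤ) (x y : X), y.1 = shift u x.1 → (φ y).1 = shift u (φ x).1

/-- `G` is isomorphic to a subgroup of `K` all of whose elements satisfy `P`. -/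
def EmbedsIn (G K : Type) [Group G] [Group K] (P : K → Prop) : Prop :=
  ∃ Φ : G →* K, Function.Injective Φ ∧ ∀ g, P (Φ g)

theorem result :
    ∃ d : ℕ, 2 ≤ d ∧ ∃ (A : Type) (_ : Finite A) (_ : TopologicalSpace A) (_ : DiscreteTopology A)
      (X : Set ((Fin d → ℤ) → A)), IsShift X ∧ EmbedsIn Heis (X ≃ₜ X) IsAut := by
  suffices h : ∃ d : ℕ, 2 ≤ d ∧ ∃ (A : Type) (_ : Finite A) (_ : TopologicalSpace A)
      (_ : DiscreteTopology A) (X : Set ((Fin d → ℤ) → A)), X.Nonempty ∧ IsClosed X ∧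
      (∀ u : Fin d → ℤ, (fun (x : (Fin d → ℤ) → A) v => x (u + v)) '' X = X) ∧
      ∃ Φ : Heis →* (X ≃ₜ X), Function.Injective Φ ∧
        ∀ (g : Heis) (u : Fin d → ℤ) (x y : X),
          (y : (Fin d → ℤ) → A) = (fun v => x.1 (u + v)) →
            ((Φ g y : X) : (Fin d → ℤ) → A) = fun v => (Φ g x).1 (u + v) by
    obtain ⟨d, hd, A, i1, i2, i3, X, h1, h2, h3, h4⟩ := h
    exact ⟨d, hd, A, i1, i2, i3, X, ⟨h1, h2, h3⟩, h4⟩
  obtain ⟨d, f, hd, ha, hb, hf⟩ := Pool.Agent.H63.Heis.emb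
  refine ⟨d, hd, Pool.Agent.H63.Heis.subshift gen d 609 (by norm_num) fun g hg => ?_⟩
  obtain ⟨N, hN⟩ : ∃ N : ℕ, |g.1.1 0 2| < 4 ^ N := pow_unbounded_of_one_lt _ (by norm_num)
  let F : Heis → Fin d → ℤ := fun h => f N (h.1.1 0 1) (h.1.1 1 2) (h.1.1 0 2)
  have hF : ∀ x y z, F (mk x y z) = f N x y z := fun x y z => by simp [F, mk]
  obtain ⟨r, r1, r2, r3, r4⟩ := Pool.Agent.H63.Heis.act F fun g g' s h => by
    rw [eq_mk g, eq_mk g', hF, hF, hf] at h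
    rw [eq_mk g, eq_mk g', eq_mk s, mk_mul, mk_mul, hF, hF, hf, h.1, h.2.1]
    exact ⟨rfl, rfl, by simpa using h.2.2⟩
  refine ⟨r, ⟨r1, r2, fun v => ?_, fun v => ?_⟩, F 1, fun h => hg ?_⟩
  · by_cases h : v ∈ range F
    · obtain ⟨g, rfl⟩ := h
      rw [r3, eq_mk g, mk_mul, hF, hF]
      simp only [add_zero, mul_zero]
      exact ⟨fun i => (abs_le.1 (ha _ _ _ _ i)).1, fun i => (abs_le.1 (ha _ _ _ _ i)).2⟩
    · rw [r4 _ _ h, sub_self]
      exact ⟨fun i => by simp, fun i => by simp⟩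
  · by_cases h : v ∈ range F
    · obtain ⟨g, rfl⟩ := h
      rw [r3, eq_mk g, mk_mul, hF, hF]
      simp only [add_zero, mul_one]
      exact ⟨fun i => (abs_le.1 (hb _ _ _ _ i)).1, fun i => (abs_le.1 (hb _ _ _ _ i)).2⟩
    · rw [r4 _ _ h, sub_self]
      exact ⟨fun i => by simp, fun i => by simp⟩
  · rw [r3, one_mul, eq_mk g, ← mk_zero, hF, hF, hf, sub_zero] at h
    rw [eq_mk g, h.1, h.2.1, Int.eq_zero_of_abs_lt_dvd h.2.2 hN, mk_zero]

end Pool.Agent.Results.MP_2c2cb6_an.Heisenberg
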